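import Pool.Agent.Q284.SL.Stm

/-!
# Project SL (helper284): the polynomial with a periodic sequence of roots
-/

set_option autoImplicit false

open Finset Polynomial ComplexConjugate

namespace Pool.Agent.Q166.SL

open Pool.Agent.Q284.GE (Uni Newt)
open Pool.Agent.Q284.SL

/-- the factor -/
noncomputable def fc (w : ℂ) : ℂ[X] := 1 - C w * X

theorem fc_eq (w : ℂ) : fc w = C (-w) * X + C 1 := by
  unfold fc
  rw [C_neg, C_1]
  ring

theorem fc_deg {w : ℂ} (h : w ≠ 0) : (fc w).natDegree = 1 := by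
  rw [fc_eq, natDegree_linear (neg_ne_zero.2 h)]

theorem fc_ne {w : ℂ} (h : w ≠ 0) : fc w ≠ 0 := by
  intro h1
  have h2 := fc_deg h
  rw [h1, natDegree_zero] at h2
  omega

theorem fc_eval (w z : ℂ) : (fc w).eval z = 1 - w * z := by
  unfold fc
  simp

theorem fc_map (w : ℂ) : (fc w).map (starRingEnd ℂ) = fc (conj w) := by
  unfold fc
  rw [Polynomial.map_sub, Polynomial.map_mul, map_C, map_X, Polynomial.map_one]

theorem fc_reverse {w : ℂ} (h : ‖w‖ = 1) : (fc w).reverse = C (-w) * (fc w).map (starRingEnd ℂ) := by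
  have hw : w ≠ 0 := by
    rintro rfl
    simp at h
  have hc : w * conj w = 1 := by
    rw [Complex.mul_conj, Complex.normSq_eq_norm_sq, h]
    simp
  have h1 : (fc w).reverse = X - C w := by
    ext n
    rw [coeff_reverse, fc_deg hw]
    unfold fc
    match n with
    | 0 =>
      have e1 : (revAt 1) 0 = 1 := by rw [revAt_le (by omega)]
      rw [e1]
      simp [coeff_X, coeff_one]
    | 1 =>
      have e1 : (revAt 1) 1 = 0 := by rw [revAt_le (by omega)]
      rw [e1]
      simp [coeff_X, coeff_one]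
    | n + 2 =>
      have e1 : (revAt 1) (n + 2) = n + 2 := by
        rw [revAt_eq_self_of_lt (by omega)]
      rw [e1]
      simp [coeff_X, coeff_one]
  rw [h1, fc_map]
  unfold fc
  have h2 : C (-w) * (1 - C (conj w) * X) = C (w * conj w) * X - C w := by
    rw [C_mul, C_neg]
    ring
  rw [h2, hc, C_1, one_mul]

/-- products of factors -/
noncomputable def pr (n : ℕ) (w : ℕ → ℂ) : ℂ[X] := ∏ j ∈ range n, fc (w j)

theorem norm_ne {w : ℂ} (h : ‖w‖ = 1) : w ≠ 0 := by
  rintro rfl
  simp at h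

theorem pr_deg (n : ℕ) {w : ℕ → ℂ} (h : ∀ j, ‖w j‖ = 1) : (pr n w).natDegree = n := by
  unfold pr
  rw [natDegree_prod _ _ fun j _ => fc_ne (norm_ne (h j))]
  rw [sum_congr rfl fun j _ => fc_deg (norm_ne (h j))]
  simp

theorem pr_reverse (n : ℕ) {w : ℕ → ℂ} (h : ∀ j, ‖w j‖ = 1) :
    (pr n w).reverse = C (∏ j ∈ range n, (-w j)) * (pr n w).map (starRingEnd ℂ) := by
  induction n with
  | zero =>
    unfold pr
    rw [prod_range_zero, prod_range_zero, C_1, Polynomial.map_one, one_mul, ← C_1, reverse_C]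
  | succ n ih =>
    have e : pr (n + 1) w = pr n w * fc (w n) := by
      unfold pr
      rw [prod_range_succ]
    rw [e, reverse_mul_of_domain, ih, fc_reverse (h n), Polynomial.map_mul, prod_range_succ, C_mul]
    ring

theorem pr_uni (n : ℕ) {w : ℕ → ℂ} (h : ∀ j, ‖w j‖ = 1) :
    Uni n (∏ j ∈ range n, (-w j)) (pr n w) where
  deg := pr_deg n h
  zero := by
    rw [coeff_zero_eq_eval_zero]
    unfold pr
    rw [eval_prod]
    exact prod_eq_one fun j _ => by rw [fc_eval]; ring
  fe := by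
    intro k hk
    have h1 := congrArg (fun p => p.coeff k) (pr_reverse n h)
    simp only [coeff_reverse, pr_deg n h, coeff_C_mul, coeff_map] at h1
    rw [revAt_le hk] at h1
    exact h1
  root := by
    intro z hz
    unfold pr at hz
    rw [eval_prod, prod_eq_zero_iff] at hz
    obtain ⟨j, -, hj⟩ := hz
    rw [fc_eval] at hj
    have h1 : w j * z = 1 := (sub_eq_zero.1 hj).symm
    have h2 := congrArg norm h1
    rw [norm_mul, h j, one_mul, norm_one] at h2
    exact h2

/-- the numbers -/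
noncomputable def wj (φ : ℤ → ℝ) (j : ℕ) : ℂ :=
  Complex.exp (-((φ (j : ℤ) : ℝ) : ℂ) * Complex.I)

theorem wj_norm (φ : ℤ → ℝ) (j : ℕ) : ‖wj φ j‖ = 1 := by
  unfold wj
  have : (-((φ (j : ℤ) : ℝ) : ℂ) * Complex.I) = ((-(φ (j : ℤ)) : ℝ) : ℂ) * Complex.I := by
    push_cast
    ring
  rw [this, Complex.norm_exp_ofReal_mul_I]

theorem uu_eq (r : ℕ) (φ : ℤ → ℝ) : UU r φ = pr r (wj φ) := rfl

section per

variable {r : ℕ} {φ : ℤ → ℝ}

theorem per_mul (hp : ∀ k : ℤ, φ (k + r) = φ k + 2 * Real.pi) (k l : ℤ) :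
    φ (k + r * l) = φ k + 2 * Real.pi * l := by
  induction l using Int.induction_on with
  | zero => simp
  | succ i ih =>
    have e : k + (r : ℤ) * ((i : ℤ) + 1) = (k + r * i) + r := by ring
    rw [e, hp, ih]
    push_cast
    ring
  | pred i ih =>
    have e := hp (k + (r : ℤ) * (-(i : ℤ) - 1))
    have e2 : k + (r : ℤ) * (-(i : ℤ) - 1) + r = k + r * (-i) := by ring
    rw [e2, ih] at e
    push_cast at e ⊢
    linarith

theorem exists_rem (hr : 1 ≤ r) (hp : ∀ k : ℤ, φ (k + r) = φ k + 2 * Real.pi) (k : ℤ) :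
    ∃ (j : ℕ) (l : ℤ), j < r ∧ φ k = φ j + 2 * Real.pi * l := by
  have hr0 : (0 : ℤ) < r := by exact_mod_cast hr
  refine ⟨(k % r).toNat, k / r, ?_, ?_⟩
  · have h1 := Int.emod_nonneg k hr0.ne'
    have h2 := Int.emod_lt_of_pos k hr0
    omega
  · have h1 := Int.emod_nonneg k hr0.ne'
    have h3 : (((k % r).toNat : ℕ) : ℤ) = k % r := Int.toNat_of_nonneg h1
    rw [h3, ← per_mul hp]
    congr 1
    have := Int.emod_add_mul_ediv k r
    linarith

theorem wj_inj (hm : StrictMono φ) (hp : ∀ k : ℤ, φ (k + r) = φ k + 2 * Real.pi) {j l : ℕ}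
    (hj : j < r) (hl : l < r) (h : wj φ j = wj φ l) : j = l := by
  unfold wj at h
  rw [Complex.exp_eq_exp_iff_exists_int] at h
  obtain ⟨n, hn⟩ := h
  have h1 : φ (l : ℤ) - φ (j : ℤ) = 2 * Real.pi * n := by
    have h2 := congrArg Complex.im hn
    simp only [neg_mul, Complex.neg_im, Complex.mul_im, Complex.ofReal_re, Complex.I_im, mul_one,
      Complex.ofReal_im, Complex.I_re, mul_zero, add_zero, Complex.add_im, Complex.intCast_re,
      Complex.intCast_im, Complex.mul_re, Complex.re_ofNat, Complex.im_ofNat, zero_mul,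
      sub_zero] at h2
    linarith
  have hφr : φ (r : ℤ) = φ 0 + 2 * Real.pi := by
    have := hp 0
    rw [zero_add] at this
    exact this
  have a1 : φ 0 ≤ φ (j : ℤ) := hm.monotone (by positivity)
  have a2 : φ 0 ≤ φ (l : ℤ) := hm.monotone (by positivity)
  have a3 : φ (j : ℤ) < φ (r : ℤ) := hm (by exact_mod_cast hj)
  have a4 : φ (l : ℤ) < φ (r : ℤ) := hm (by exact_mod_cast hl)
  have hpi := Real.pi_pos
  have hn0 : n = 0 := by
    have b1 : (n : ℝ) < 1 := by
      by_contra hc
      push Not at hc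
      nlinarith
    have b2 : (-1 : ℝ) < n := by
      by_contra hc
      push Not at hc
      nlinarith
    have c1 : n < 1 := by exact_mod_cast b1
    have c2 : -1 < n := by exact_mod_cast b2
    omega
  rw [hn0] at h1
  have h3 : φ (l : ℤ) = φ (j : ℤ) := by
    push_cast at h1
    linarith
  have := hm.injective h3
  exact_mod_cast this.symm

theorem exp_shift (x y : ℝ) (l : ℤ) (h : x = y + 2 * Real.pi * l) :
    Complex.exp (x * Complex.I) = Complex.exp (y * Complex.I) := by
  rw [Complex.exp_eq_exp_iff_exists_int]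
  refine ⟨l, ?_⟩
  rw [h]
  push_cast
  ring

theorem wj_mul (φ : ℤ → ℝ) (j : ℕ) (x : ℝ) : wj φ j * Complex.exp (x * Complex.I) =
    Complex.exp (((x - φ j : ℝ) : ℂ) * Complex.I) := by
  unfold wj
  rw [← Complex.exp_add]
  congr 1
  push_cast
  ring

theorem wj_root (φ : ℤ → ℝ) (j : ℕ) (x : ℝ) : wj φ j * Complex.exp (x * Complex.I) = 1 ↔
    ∃ l : ℤ, x = φ j + 2 * Real.pi * l := by
  rw [wj_mul, Complex.exp_eq_one_iff]
  constructor
  · rintro ⟨n, hn⟩
    refine ⟨n, ?_⟩
    have h2 := congrArg Complex.im hn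
    simp only [Complex.mul_im, Complex.ofReal_re, Complex.I_im, mul_one,
      Complex.ofReal_im, Complex.I_re, mul_zero, add_zero, Complex.intCast_re,
      Complex.intCast_im, Complex.mul_re, Complex.re_ofNat, Complex.im_ofNat, zero_mul,
      sub_zero] at h2
    linarith
  · rintro ⟨n, hn⟩
    refine ⟨n, ?_⟩
    rw [hn]
    push_cast
    ring

end per

theorem t_UPH : S_UPH := by
  intro r φ hr hm hp
  refine ⟨pr_uni r (wj_norm φ), ?_, ?_, ?_⟩
  · intro x
    rw [uu_eq]
    unfold pr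
    rw [eval_prod, prod_eq_zero_iff]
    constructor
    · rintro ⟨j, -, hj⟩
      rw [fc_eval, sub_eq_zero] at hj
      obtain ⟨l, hl⟩ := (wj_root φ j x).1 hj.symm
      exact ⟨(j : ℤ) + r * l, by rw [per_mul hp, hl]⟩
    · rintro ⟨k, hk⟩
      obtain ⟨j, l, hj, hl⟩ := exists_rem hr hp k
      refine ⟨j, mem_range.2 hj, ?_⟩
      rw [fc_eval, sub_eq_zero]
      exact ((wj_root φ j x).2 ⟨l, by rw [hk, hl]⟩).symm
  · intro k
    obtain ⟨j, l, hj, hl⟩ := exists_rem hr hp k
    rw [exp_shift _ _ l hl, uu_eq]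
    unfold pr
    rw [← mul_prod_erase _ _ (mem_range.2 hj), derivative_mul, eval_add, eval_mul, eval_mul]
    have h1 : (fc (wj φ j)).eval (Complex.exp (((φ (j : ℤ) : ℝ) : ℂ) * Complex.I)) = 0 := by
      rw [fc_eval, sub_eq_zero]
      exact ((wj_root φ j (φ j)).2 ⟨0, by simp⟩).symm
    rw [h1, zero_mul, add_zero]
    refine mul_ne_zero ?_ ?_
    · unfold fc
      simp only [derivative_sub, derivative_one, derivative_C_mul, derivative_X, mul_one, zero_sub,
        eval_neg, eval_C]
      exact neg_ne_zero.2 (norm_ne (wj_norm φ j))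
    · rw [eval_prod, prod_ne_zero_iff]
      intro i hi
      rw [mem_erase, mem_range] at hi
      rw [fc_eval]
      intro h2
      rw [sub_eq_zero] at h2
      apply hi.1
      apply wj_inj hm hp hi.2 hj
      have h3 : wj φ j * Complex.exp (((φ (j : ℤ) : ℝ) : ℂ) * Complex.I) = 1 :=
        (wj_root φ j (φ j)).2 ⟨0, by simp⟩
      exact mul_right_cancel₀ (Complex.exp_ne_zero _) (h2.symm.trans h3.symm)
  · intro φ' hm' hp' hj'
    rw [uu_eq, uu_eq]
    unfold pr
    rw [Polynomial.map_prod, prod_congr rfl fun j _ => fc_map (wj φ j)]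
    have i1 : Set.InjOn (wj φ') (range r : Set ℕ) := by
      intro a ha b hb hab
      exact wj_inj hm' hp' (mem_range.1 ha) (mem_range.1 hb) hab
    have i2 : Set.InjOn (fun j => conj (wj φ j)) (range r : Set ℕ) := by
      intro a ha b hb hab
      exact wj_inj hm hp (mem_range.1 ha) (mem_range.1 hb) (star_injective hab)
    have e1 : ∏ j ∈ range r, fc (wj φ' j) = ∏ w ∈ (range r).image (wj φ'), fc w := by
      rw [prod_image i1]
    have e2 : ∏ j ∈ range r, fc (conj (wj φ j)) =
        ∏ w ∈ (range r).image (fun j => conj (wj φ j)), fc w := by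
      rw [prod_image i2]
    rw [e1, e2]
    congr 1
    apply eq_of_subset_of_card_le
    · intro w hw
      rw [mem_image] at hw ⊢
      obtain ⟨a, ha, rfl⟩ := hw
      obtain ⟨k, hk⟩ := hj' (a : ℤ)
      obtain ⟨j, l, hj, hl⟩ := exists_rem hr hp k
      refine ⟨j, mem_range.2 hj, ?_⟩
      unfold wj
      rw [hk, ← Complex.exp_conj]
      have c1 : conj (-((φ (j : ℤ) : ℝ) : ℂ) * Complex.I) = ((φ (j : ℤ) : ℝ) : ℂ) * Complex.I := by
        rw [map_mul, map_neg, Complex.conj_ofReal, Complex.conj_I]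
        ring
      have c2 : (-((-φ k : ℝ) : ℂ) * Complex.I) = ((φ k : ℝ) : ℂ) * Complex.I := by
        push_cast
        ring
      rw [c1, c2]
      exact (exp_shift _ _ l hl).symm
    · rw [card_image_of_injOn i1, card_image_of_injOn i2]

end Pool.Agent.Q166.SL
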